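import Mathlib
import Pool.Agent.W448.FF.Stmts

/-! FF-MIN: a minimiser with positive weights and constant `bv`. -/

set_option autoImplicit false

namespace Pool.Agent.W578.FF

open Finset Filter Topology
open Pool.Agent.W448.FF

variable {V : Type}

theorem adj_comm (G : OG V) (u v : V) : G.adj u v ↔ G.adj v u := by
  unfold OG.adj
  exact or_comm

theorem Bad_swap12 (G : OG V) (a b c : V) : Bad G a b c ↔ Bad G b a c := by
  unfold Bad
  rw [adj_comm G b a]
  constructor
  · rintro (h | h | h | h | h | h)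
    · exact Or.inr (Or.inl h)
    · exact Or.inl h
    · exact Or.inr (Or.inr (Or.inl ⟨h.2, h.1⟩))
    · exact Or.inr (Or.inr (Or.inr (Or.inr (Or.inl h))))
    · exact Or.inr (Or.inr (Or.inr (Or.inl h)))
    · exact Or.inr (Or.inr (Or.inr (Or.inr (Or.inr ⟨h.2, h.1⟩))))
  · rintro (h | h | h | h | h | h)
    · exact Or.inr (Or.inl h)
    · exact Or.inl h
    · exact Or.inr (Or.inr (Or.inl ⟨h.2, h.1⟩))
    · exact Or.inr (Or.inr (Or.inr (Or.inr (Or.inl h))))
    · exact Or.inr (Or.inr (Or.inr (Or.inl h)))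
    · exact Or.inr (Or.inr (Or.inr (Or.inr (Or.inr ⟨h.2, h.1⟩))))

theorem Bad_swap23 (G : OG V) (a b c : V) : Bad G a b c ↔ Bad G a c b := by
  unfold Bad
  rw [adj_comm G c b]
  constructor
  · rintro (h | h | h | h | h | h)
    · exact Or.inl ⟨h.2, h.1⟩
    · exact Or.inr (Or.inr (Or.inl h))
    · exact Or.inr (Or.inl h)
    · exact Or.inr (Or.inr (Or.inr (Or.inl ⟨h.2, h.1⟩)))
    · exact Or.inr (Or.inr (Or.inr (Or.inr (Or.inr h))))
    · exact Or.inr (Or.inr (Or.inr (Or.inr (Or.inl h))))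
  · rintro (h | h | h | h | h | h)
    · exact Or.inl ⟨h.2, h.1⟩
    · exact Or.inr (Or.inr (Or.inl h))
    · exact Or.inr (Or.inl h)
    · exact Or.inr (Or.inr (Or.inr (Or.inl ⟨h.2, h.1⟩)))
    · exact Or.inr (Or.inr (Or.inr (Or.inr (Or.inr h))))
    · exact Or.inr (Or.inr (Or.inr (Or.inr (Or.inl h))))

theorem bd_swap12 (G : OG V) (a b c : V) : bd G a b c = bd G b a c := by
  classical
  unfold bd
  by_cases h : Bad G a b c
  · rw [if_pos h, if_pos ((Bad_swap12 G a b c).1 h)]
  · rw [if_neg h, if_neg (fun h' => h ((Bad_swap12 G a b c).2 h'))]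

theorem bd_swap23 (G : OG V) (a b c : V) : bd G a b c = bd G a c b := by
  classical
  unfold bd
  by_cases h : Bad G a b c
  · rw [if_pos h, if_pos ((Bad_swap23 G a b c).1 h)]
  · rw [if_neg h, if_neg (fun h' => h ((Bad_swap23 G a b c).2 h'))]

/-- the trilinear form -/
noncomputable def TT [Fintype V] (G : OG V) (f g h : V → ℝ) : ℝ :=
  ∑ a, ∑ y, ∑ z, f a * g y * h z * bd G a y z

theorem b_eq [Fintype V] (G : OG V) (w : V → ℝ) : b G w = TT G w w w := by
  unfold b bv TT
  refine Finset.sum_congr rfl fun a _ => ?_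
  rw [Finset.mul_sum]
  refine Finset.sum_congr rfl fun y _ => ?_
  rw [Finset.mul_sum]
  refine Finset.sum_congr rfl fun z _ => ?_
  ring

theorem TT_swap12 [Fintype V] (G : OG V) (f g h : V → ℝ) : TT G f g h = TT G g f h := by
  unfold TT
  rw [Finset.sum_comm]
  refine Finset.sum_congr rfl fun y _ => Finset.sum_congr rfl fun a _ =>
    Finset.sum_congr rfl fun z _ => ?_
  rw [bd_swap12 G a y z]
  ring

theorem TT_swap23 [Fintype V] (G : OG V) (f g h : V → ℝ) : TT G f g h = TT G f h g := by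
  unfold TT
  refine Finset.sum_congr rfl fun a _ => ?_
  rw [Finset.sum_comm]
  refine Finset.sum_congr rfl fun z _ => Finset.sum_congr rfl fun y _ => ?_
  rw [bd_swap23 G a y z]
  ring

theorem TT_lin [Fintype V] (G : OG V) (w d : V → ℝ) (t : ℝ) :
    TT G (fun x => w x + t * d x) (fun x => w x + t * d x) (fun x => w x + t * d x) =
      TT G w w w + t * (TT G d w w + TT G w d w + TT G w w d) +
        t ^ 2 * (TT G d d w + TT G d w d + TT G w d d) + t ^ 3 * TT G d d d := by
  unfold TT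
  simp only [Finset.mul_sum, ← Finset.sum_add_distrib]
  refine Finset.sum_congr rfl fun a _ => Finset.sum_congr rfl fun y _ =>
    Finset.sum_congr rfl fun z _ => ?_
  ring

theorem TT_bv [Fintype V] (G : OG V) (w d : V → ℝ) : TT G d w w = ∑ a, d a * bv G w a := by
  unfold TT bv
  refine Finset.sum_congr rfl fun a _ => ?_
  rw [Finset.mul_sum]
  refine Finset.sum_congr rfl fun y _ => ?_
  rw [Finset.mul_sum]
  refine Finset.sum_congr rfl fun z _ => ?_
  ring

theorem b_expand [Fintype V] (G : OG V) (w d : V → ℝ) : ∃ c2 c3 : ℝ, ∀ t : ℝ,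
    b G (fun x => w x + t * d x) = b G w + t * (3 * ∑ a, d a * bv G w a) + t ^ 2 * c2 +
      t ^ 3 * c3 := by
  refine ⟨TT G d d w + TT G d w d + TT G w d d, TT G d d d, fun t => ?_⟩
  rw [b_eq, b_eq, TT_lin, ← TT_bv, TT_swap12 G w d w, TT_swap23 G w w d, TT_swap12 G w d w]
  ring

/-- first order condition -/
theorem kkt [Fintype V] (G : OG V) (w : V → ℝ) (hw : Wt w)
    (hmin : ∀ w', Wt w' → b G w ≤ b G w') (u v : V) (hv : 0 < w v) : bv G w v ≤ bv G w u := by
  classical
  by_cases huv : u = v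
  · rw [huv]
  set d : V → ℝ := fun x => (if x = u then 1 else 0) - (if x = v then 1 else 0) with hd
  obtain ⟨c2, c3, hexp⟩ := b_expand G w d
  have hL : ∑ a, d a * bv G w a = bv G w u - bv G w v := by
    simp only [hd, sub_mul, ite_mul, one_mul, zero_mul, Finset.sum_sub_distrib,
      Finset.sum_ite_eq', Finset.mem_univ, if_true]
  have hds : ∑ a, d a = 0 := by
    simp only [hd, Finset.sum_sub_distrib, Finset.sum_ite_eq', Finset.mem_univ, if_true, sub_self]
  rw [hL] at hexp
  have hpos : ∀ t : ℝ, 0 < t → t ≤ w v →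
      0 ≤ 3 * (bv G w u - bv G w v) + t * c2 + t ^ 2 * c3 := by
    intro t ht0 htv
    have hWt : Wt (fun x => w x + t * d x) := by
      refine ⟨fun x => ?_, ?_⟩
      · by_cases hxv : x = v
        · have hxu : x ≠ u := fun h => huv (h.symm.trans hxv)
          simp only [hd, if_neg hxu, if_pos hxv]
          rw [hxv]
          linarith
        · have h1 : 0 ≤ d x := by
            simp only [hd, if_neg hxv]
            split_ifs <;> norm_num
          have := hw.1 x
          positivity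
      · rw [Finset.sum_add_distrib, ← Finset.mul_sum, hds, hw.2]
        ring
    have h1 := hmin _ hWt
    rw [hexp t] at h1
    have h2 : 0 ≤ t * (3 * (bv G w u - bv G w v) + t * c2 + t ^ 2 * c3) := by
      nlinarith
    exact nonneg_of_mul_nonneg_right h2 ht0
  have hlim : Tendsto (fun t : ℝ => 3 * (bv G w u - bv G w v) + t * c2 + t ^ 2 * c3) (𝓝[>] 0)
      (𝓝 (3 * (bv G w u - bv G w v) + 0 * c2 + 0 ^ 2 * c3)) :=
    (Continuous.tendsto (by fun_prop) 0).mono_left nhdsWithin_le_nhds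
  have h3 := ge_of_tendsto hlim (b := 0) (by
    filter_upwards [Ioc_mem_nhdsGT hv] with t ht
    exact hpos t ht.1 ht.2)
  linarith

theorem exists_min [Fintype V] (G : OG V) (w : V → ℝ) (hw : Wt w) :
    ∃ w0 : V → ℝ, Wt w0 ∧ b G w0 ≤ b G w ∧ ∀ w', Wt w' → b G w0 ≤ b G w' := by
  have hmem : ∀ w : V → ℝ, w ∈ stdSimplex ℝ V ↔ Wt w := fun w => Iff.rfl
  have hcont : Continuous (fun w : V → ℝ => b G w) := by
    unfold b bv
    fun_prop
  obtain ⟨w0, hw0, hmin⟩ := (isCompact_stdSimplex ℝ V).exists_isMinOn ⟨w, (hmem w).2 hw⟩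
    hcont.continuousOn
  refine ⟨w0, (hmem w0).1 hw0, hmin ((hmem w).2 hw), fun w' hw' => hmin ((hmem w').2 hw')⟩

theorem sum_sub [Fintype V] (p : V → Prop) [DecidablePred p] (f : V → ℝ)
    (hf : ∀ v, f v ≠ 0 → p v) : ∑ v : {v // p v}, f v.1 = ∑ v, f v := by
  rw [← Finset.sum_subtype (univ.filter p) (by simp) f]
  exact Finset.sum_filter_of_ne fun v _ h => hf v h

theorem min : Pool.Agent.W448.FF.S_MIN := by
  classical
  intro V _ G w hC hw hb
  obtain ⟨w0, hw0, hle, hmin⟩ := exists_min G w hw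
  set G' : OG {v // 0 < w0 v} := ⟨fun u v => G.arc u.1 v.1, fun u v h => G.asymm u.1 v.1 h⟩
    with hG'
  set w' : {v // 0 < w0 v} → ℝ := fun v => w0 v.1 with hw'
  have hsupp : ∀ v, w0 v ≠ 0 → 0 < w0 v := fun v h => lt_of_le_of_ne (hw0.1 v) (Ne.symm h)
  have hbd : ∀ a y z : {v // 0 < w0 v}, bd G' a y z = bd G a.1 y.1 z.1 := fun a y z => rfl
  have hbv : ∀ v : {v // 0 < w0 v}, bv G' w' v = bv G w0 v.1 := by
    intro v
    unfold bv
    rw [← sum_sub (fun v => 0 < w0 v) (fun y => ∑ z, w0 y * w0 z * bd G v.1 y z)]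
    · refine Finset.sum_congr rfl fun y _ => ?_
      rw [← sum_sub (fun v => 0 < w0 v) (fun z => w0 y.1 * w0 z * bd G v.1 y.1 z)]
      · rfl
      · intro z hz
        apply hsupp
        intro h0
        apply hz
        rw [h0]; ring
    · intro y hy
      apply hsupp
      intro h0
      apply hy
      simp [h0]
  have hb' : b G' w' = b G w0 := by
    unfold b
    rw [← sum_sub (fun v => 0 < w0 v) (fun v => w0 v * bv G w0 v)]
    · refine Finset.sum_congr rfl fun v _ => ?_
      rw [hbv v]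
    · intro v hv
      apply hsupp
      intro h0
      apply hv
      rw [h0]; ring
  have hsum : ∑ v, w' v = 1 := by
    have h1 := sum_sub (fun v => 0 < w0 v) w0 hsupp
    have h2 : ∑ v, w' v = ∑ v : {v // 0 < w0 v}, w0 v.1 := rfl
    rw [h2, h1, hw0.2]
  refine ⟨{v // 0 < w0 v}, inferInstance, G', w', ?_, ⟨fun v => v.2, hsum⟩, ?_, ?_⟩
  · intro a b c d h1 h2 h3 h4
    exact hC a.1 b.1 c.1 d.1 h1 h2 h3 h4
  · rw [hb']
    linarith
  · intro v
    have hconst : ∀ u : {v // 0 < w0 v}, bv G' w' u = bv G' w' v := by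
      intro u
      rw [hbv, hbv]
      exact le_antisymm (kkt G w0 hw0 hmin v.1 u.1 u.2) (kkt G w0 hw0 hmin u.1 v.1 v.2)
    have h1 : b G' w' = ∑ u, w' u * bv G' w' v := by
      unfold b
      exact Finset.sum_congr rfl fun u _ => by rw [hconst u]
    rw [h1, ← Finset.sum_mul, hsum, one_mul]

end Pool.Agent.W578.FF
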