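import Mathlib
import Pool.Agent.W448.FF.Kernel

/-! FF-PRM: permutation invariance of `E5`. -/

set_option autoImplicit false

namespace Pool.Agent.W578.FF

open Finset
open Pool.Agent.W448.FF

theorem sum_cons {V : Type} [Fintype V] {n : ℕ} (F : (Fin (n + 1) → V) → ℝ) :
    ∑ v, F v = ∑ a, ∑ v : Fin n → V, F (Fin.cons a v) := by
  rw [← Equiv.sum_comp (Fin.consEquiv (fun _ => V)) F, Fintype.sum_prod_type]
  rfl

theorem sum_nil {V : Type} [Fintype V] (F : (Fin 0 → V) → ℝ) : ∑ v, F v = F default := by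
  rw [Fintype.sum_unique]

theorem E5_eq {V : Type} [Fintype V] (w : V → ℝ) (f : V → V → V → V → V → ℝ) :
    E5 w f = ∑ v : Fin 5 → V, (∏ i, w (v i)) * f (v 0) (v 1) (v 2) (v 3) (v 4) := by
  rw [sum_cons]
  simp_rw [sum_cons (n := 3), sum_cons (n := 2), sum_cons (n := 1), sum_cons (n := 0), sum_nil]
  unfold E5
  refine Finset.sum_congr rfl fun a _ => Finset.sum_congr rfl fun b _ =>
    Finset.sum_congr rfl fun c _ => Finset.sum_congr rfl fun d _ =>
    Finset.sum_congr rfl fun e _ => ?_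
  rw [Fin.prod_univ_five]
  rfl

theorem prm : Pool.Agent.W448.FF.S_PRM := by
  intro V _ w f l hl
  rw [E5_eq, E5_eq]
  have hv : ∀ v : Fin 5 → V, ![v 0, v 1, v 2, v 3, v 4] = v := by
    intro v
    funext i
    fin_cases i <;> rfl
  simp_rw [hv]
  set σ : Equiv.Perm (Fin 5) := Equiv.ofBijective l hl with hσ
  have hσl : ∀ i, σ i = l i := fun i => rfl
  rw [← Equiv.sum_comp (Equiv.arrowCongr σ.symm (Equiv.refl V))
    (fun v : Fin 5 → V => (∏ i, w (v i)) * f (v 0) (v 1) (v 2) (v 3) (v 4))]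
  refine Finset.sum_congr rfl fun v _ => ?_
  have h1 : ∀ i, (Equiv.arrowCongr σ.symm (Equiv.refl V)) v i = v (l i) := fun i => rfl
  simp only [h1]
  congr 1
  exact (Equiv.prod_comp σ (fun i => w (v i))).symm

end Pool.Agent.W578.FF
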